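import Mathlib

/-!
# MP_332034_al, Q1: subspace lattices over division rings versus over fields

A left vector space `V` over a division ring `D` is also a vector space over the centre `F` of `D`,
which is a field.  Every `D`-subspace of `V` is an `F`-subspace, and the meet (intersection) and the
join (sum) of two `D`-subspaces do not depend on whether they are computed among the `D`-subspaces
or among the `F`-subspaces.  So `Sub_D(V)` is a sublattice of `Sub_F(V)`, and the negated form of
Q1 holds.
-/

namespace Pool.Agent.Results.MP_332034_al.CentreScalars

universe u v w

/-- `L` embeds into `M`: there is an injective map `L → M` which preserves binary meets and binary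
joins.  Least and greatest elements play no role. -/
def EmbedsInto (L M : Type*) [Lattice L] [Lattice M] : Prop :=
  ∃ f : L → M, Function.Injective f ∧
    (∀ a b : L, f (a ⊓ b) = f a ⊓ f b) ∧ (∀ a b : L, f (a ⊔ b) = f a ⊔ f b)

/-- `L` embeds into the lattice `Submodule D V` of all subspaces of a left vector space `V`
over a division ring `D`. -/
def EmbedsOverDivisionRing (L : Type u) [Lattice L] : Prop :=
  ∃ (D : Type v) (_ : DivisionRing D) (V : Type w) (_ : AddCommGroup V) (_ : Module D V),
    EmbedsInto L (Submodule D V)

/-- `L` embeds into the lattice `Submodule F W` of all subspaces of a vector space `W`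
over a (commutative) field `F`. -/
def EmbedsOverField (L : Type u) [Lattice L] : Prop :=
  ∃ (F : Type v) (_ : Field F) (W : Type w) (_ : AddCommGroup W) (_ : Module F W),
    EmbedsInto L (Submodule F W)

/-- The lattice of `D`-subspaces embeds into the lattice of subspaces over the centre of `D`. -/
theorem embeds_centre (D : Type v) [DivisionRing D] (V : Type w) [AddCommGroup V] [Module D V] :
    EmbedsInto (Submodule D V) (Submodule (Subring.center D) V) := by
  refine ⟨fun U => U.restrictScalars (Subring.center D), ?_, ?_, ?_⟩
  · exact Submodule.restrictScalars_injective _ _ _
  · intro a b
    ext x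
    simp
  · intro a b
    ext x
    simp [Submodule.mem_sup]

/-- **Q1, negated form.**  A lattice embeds into the subspace lattice of a left vector space over
some division ring if and only if it embeds into the subspace lattice of a vector space over some
field.  (No restriction on dimensions, cardinalities or characteristics.) -/
theorem result (L : Type u) [Lattice L] :
    EmbedsOverDivisionRing.{u, v, w} L ↔ EmbedsOverField.{u, v, w} L := by
  constructor
  · rintro ⟨D, hD, V, hV, hM, f, hf, hinf, hsup⟩
    obtain ⟨g, hg, ginf, gsup⟩ := embeds_centre D V
    refine ⟨Subring.center D, inferInstance, V, hV, inferInstance, fun a => g (f a),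
      hg.comp hf, ?_, ?_⟩
    · intro a b
      simp only [hinf, ginf]
    · intro a b
      simp only [hsup, gsup]
  · rintro ⟨F, hF, W, hW, hM, h⟩
    exact ⟨F, inferInstance, W, hW, hM, h⟩

end Pool.Agent.Results.MP_332034_al.CentreScalars
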